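import Mathlib

/-!
# Minimal zero forcing sets all propagating in one round (MP_81d777_co)
-/

namespace Pool.Agent.Results.MP_81d777_co.SymplecticGraph

open Set

section Defs

variable {V : Type*}

/-- The white vertices that can be forced when exactly the vertices of `B` are blue. -/
def forced (G : SimpleGraph V) (B : Set V) : Set V :=
  {w | w ∉ B ∧ ∃ u ∈ B, G.Adj u w ∧ ∀ x, x ∉ B → G.Adj u x → x = w}

/-- The set `B^[i]` of vertices that are blue after `i` rounds. -/
def blue (G : SimpleGraph V) (B : Set V) : ℕ → Set V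
  | 0 => B
  | i + 1 => blue G B i ∪ forced G (blue G B i)

/-- The set `B^(i)` of vertices that become blue in round `i`. -/
def layer (G : SimpleGraph V) (B : Set V) : ℕ → Set V
  | 0 => B
  | i + 1 => forced G (blue G B i)

/-- The largest `p` with `B^(p)` nonempty. -/
noncomputable def pt (G : SimpleGraph V) (B : Set V) : ℕ := sSup {i | (layer G B i).Nonempty}

/-- `B` is a forcing set. -/
def IsForcing (G : SimpleGraph V) (B : Set V) : Prop := blue G B (pt G B) = univ

/-- `B` is a minimal forcing set. -/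
def IsMinimalForcing (G : SimpleGraph V) (B : Set V) : Prop :=
  IsForcing G B ∧ ∀ C, C ⊂ B → ¬ IsForcing G C

/-- The upper standard propagation time. -/
noncomputable def upperPt (G : SimpleGraph V) : ℕ :=
  sSup {p | ∃ B, IsMinimalForcing G B ∧ pt G B = p}

/-- `G` is a standard fast join: it has at least two vertices and is complete, or it is the join
of `t ≥ 2` factors (the classes of `c`), where each factor is an edgeless graph on at least two
vertices or a disjoint union of two complete graphs on at least two vertices each. -/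
def StandardFastJoin (G : SimpleGraph V) : Prop :=
  2 ≤ Nat.card V ∧ ((∀ x y, x ≠ y → G.Adj x y) ∨
    ∃ t : ℕ, 2 ≤ t ∧ ∃ c : V → Fin t, (∀ x y, c x ≠ c y → G.Adj x y) ∧
      ∀ i : Fin t,
        (2 ≤ {x | c x = i}.ncard ∧ ∀ x y, c x = i → c y = i → ¬ G.Adj x y) ∨
        (∃ K L : Set V, 2 ≤ K.ncard ∧ 2 ≤ L.ncard ∧ Disjoint K L ∧ K ∪ L = {x | c x = i} ∧
          ∀ x y, c x = i → c y = i → (G.Adj x y ↔ x ≠ y ∧ (x ∈ K ↔ y ∈ K))))

end Defs

/-! ## Forts -/

section Forts

variable {V : Type*} {G : SimpleGraph V}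

theorem blue_mono (B : Set V) {i j : ℕ} (hij : i ≤ j) : blue G B i ⊆ blue G B j := by
  induction hij with
  | refl => exact Subset.rfl
  | step _ ih => exact ih.trans subset_union_left

/-- Forts are never entered. -/
theorem fort_blue {B F : Set V} (hB : ∀ z ∈ F, z ∉ B)
    (hF : ∀ x, x ∉ F → ¬ ∃ z ∈ F, G.Adj x z ∧ ∀ z' ∈ F, G.Adj x z' → z' = z) :
    ∀ i, ∀ z ∈ F, z ∉ blue G B i := by
  intro i
  induction i with
  | zero => exact hB
  | succ i ih =>
    rintro z hz (h | ⟨_, u, hu, huz, huniq⟩)
    · exact ih z hz h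
    · refine hF u (fun h => ih u h hu) ⟨z, hz, huz, fun z' hz' h => huniq z' (ih z' hz') h⟩

theorem no_fort {B F : Set V} (hforce : IsForcing G B) (hne : F.Nonempty)
    (hB : ∀ z ∈ F, z ∉ B)
    (hF : ∀ x, x ∉ F → ¬ ∃ z ∈ F, G.Adj x z ∧ ∀ z' ∈ F, G.Adj x z' → z' = z) : False := by
  obtain ⟨z, hz⟩ := hne
  have h1 := fort_blue hB hF (pt G B) z hz
  have h2 : blue G B (pt G B) = univ := hforce
  rw [h2] at h1
  exact h1 (mem_univ z)

theorem pt_eq_one {B : Set V} (h1 : blue G B 1 = univ) (h2 : B ≠ univ) :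
    pt G B = 1 := by
  have hg : IsGreatest {i | (layer G B i).Nonempty} 1 := by
    constructor
    · show (forced G B).Nonempty
      by_contra h
      rw [not_nonempty_iff_eq_empty] at h
      apply h2
      have h4 : B ∪ forced G B = univ := h1
      rw [h, union_empty] at h4
      exact h4
    · intro i hi
      by_contra hlt
      obtain ⟨j, rfl⟩ : ∃ j, i = j + 2 := ⟨i - 2, by omega⟩
      obtain ⟨z, hz, _⟩ := hi
      apply hz
      have h4 : blue G B (j + 1) = univ :=
        univ_subset_iff.1 (h1 ▸ blue_mono B (show 1 ≤ j + 1 by omega))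
      rw [h4]
      exact mem_univ z
  exact hg.csSup_eq

end Forts

/-! ## The graph -/

/-- The four-dimensional space over the field with two elements. -/
abbrev Vec : Type := ZMod 2 × ZMod 2 × ZMod 2 × ZMod 2

/-- The symplectic form. -/
def sy (v w : Vec) : ZMod 2 :=
  v.1 * w.2.1 + v.2.1 * w.1 + v.2.2.1 * w.2.2.2 + v.2.2.2 * w.2.2.1

theorem sy_comm (v w : Vec) : sy v w = sy w v := by
  unfold sy; ring

theorem sy_self (v : Vec) : sy v v = 0 := by
  unfold sy
  have h : (2 : ZMod 2) = 0 := rfl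
  linear_combination (v.1 * v.2.1 + v.2.2.1 * v.2.2.2) * h

/-- The form as a family of functionals. -/
def L (w : Vec) : Vec →ₗ[ZMod 2] ZMod 2 where
  toFun v := sy v w
  map_add' a b := by
    simp only [sy, Prod.fst_add, Prod.snd_add]; ring
  map_smul' c a := by
    simp only [sy, Prod.smul_fst, Prod.smul_snd, smul_eq_mul, RingHom.id_apply]; ring

theorem sy_zero (w : Vec) : sy 0 w = 0 := (L w).map_zero

/-- Vertices: nonzero vectors in two copies. -/
abbrev Vert : Type := {v : Vec // v ≠ 0} × Bool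

/-- The doubled symplectic graph. -/
def GG : SimpleGraph Vert where
  Adj x y := sy x.1 y.1 = 1
  symm := ⟨fun x y h => by rw [sy_comm]; exact h⟩
  loopless := ⟨fun x h => by rw [sy_self] at h; exact absurd h (by decide)⟩

theorem adj_iff (x y : Vert) : GG.Adj x y ↔ sy x.1 y.1 = 1 := Iff.rfl

theorem zmod2 (a : ZMod 2) : a = 0 ∨ a = 1 := by
  revert a; decide

theorem common_nbr' : ∀ v w : Vec, (∃ u : Vec, sy u v = 1 ∧ sy u w = 1) ∨ v = 0 ∨ w = 0 := by
  decide

theorem zero_ne_one' : (0 : ZMod 2) ≠ 1 := by decide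

theorem common_nbr (v w : Vec) (hv : v ≠ 0) (hw : w ≠ 0) :
    ∃ u : Vec, u ≠ 0 ∧ sy u v = 1 ∧ sy u w = 1 := by
  rcases common_nbr' v w with ⟨u, h1, h2⟩ | h | h
  · refine ⟨u, ?_, h1, h2⟩
    rintro rfl
    rw [sy_zero] at h1
    exact zero_ne_one' h1
  · exact absurd h hv
  · exact absurd h hw

theorem adj_mk (u : Vec) (hu : u ≠ 0) (b : Bool) (x : Vert) :
    GG.Adj (⟨u, hu⟩, b) x ↔ sy u x.1 = 1 := Iff.rfl

/-- A vertex. -/
def base : Vert := (⟨(1, 0, 0, 0), by decide⟩, false)

theorem common_non : ∀ v w : Vec, ∃ u : Vec, u ≠ 0 ∧ sy u v = 0 ∧ sy u w = 0 := by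
  decide

theorem connected : GG.Connected := by
  have hne : Nonempty Vert := ⟨base⟩
  refine { preconnected := ?_ }
  intro x y
  obtain ⟨u, hu, h1, h2⟩ := common_nbr x.1 y.1 x.1.2 y.1.2
  have e1 : GG.Adj (⟨u, hu⟩, false) x := (adj_mk _ _ _ _).2 h1
  have e2 : GG.Adj (⟨u, hu⟩, false) y := (adj_mk _ _ _ _).2 h2
  exact e1.symm.reachable.trans e2.reachable

theorem not_join : ¬ StandardFastJoin GG := by
  rintro ⟨_, h | ⟨t, ht, c, hc, hfac⟩⟩
  · have h0 : base ≠ (base.1, true) := by
      intro h0
      have h00 := congrArg Prod.snd h0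
      exact Bool.false_ne_true h00
    have h1 := h _ _ h0
    rw [adj_iff, sy_self] at h1
    exact zero_ne_one' h1
  · have hne : ∀ i : Fin t, ∃ x, c x = i := by
      intro i
      rcases hfac i with ⟨h1, _⟩ | ⟨K, M, h1, _, _, h2, _⟩
      · obtain ⟨x, hx⟩ := Set.nonempty_of_ncard_ne_zero (s := {x | c x = i}) (by omega)
        exact ⟨x, hx⟩
      · obtain ⟨x, hx⟩ := Set.nonempty_of_ncard_ne_zero (s := K) (by omega)
        have h3 : x ∈ K ∪ M := Or.inl hx
        rw [h2] at h3
        exact ⟨x, h3⟩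
    obtain ⟨x, hx⟩ := hne ⟨0, by omega⟩
    obtain ⟨y, hy⟩ := hne ⟨1, by omega⟩
    obtain ⟨u, hu, h1, h2⟩ := common_non x.1 y.1
    have h3 : c (⟨u, hu⟩, false) = c x := by
      by_contra h
      have h4 := (adj_mk _ _ _ _).1 (hc _ _ h)
      rw [h1] at h4
      exact zero_ne_one' h4
    have h5 : c (⟨u, hu⟩, false) = c y := by
      by_contra h
      have h4 := (adj_mk _ _ _ _).1 (hc _ _ h)
      rw [h2] at h4
      exact zero_ne_one' h4
    have h6 : c x = c y := h3.symm.trans h5
    rw [hx, hy, Fin.mk.injEq] at h6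
    omega

/-- Every forcing set forces everything in the first round. -/
theorem one_round {B : Set Vert} (hB : IsForcing GG B) {w : Vert} (hw : w ∉ B) :
    w ∈ forced GG B := by
  classical
  by_contra hno
  -- two copies of the same vector are never both white
  have htwin : ∀ v : {v : Vec // v ≠ 0}, ∃ b : Bool, (v, b) ∈ B := by
    intro v
    by_contra h
    push Not at h
    refine no_fort (F := {z : Vert | z.1 = v}) hB ⟨((v, false) : Vert), rfl⟩ ?_ ?_
    · rintro ⟨z, b⟩ hz
      have hz' : z = v := hz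
      subst hz'
      exact h b
    · rintro x _ ⟨z, hz, hxz, huniq⟩
      have hz' : z.1 = v := hz
      have h1 := (adj_iff _ _).1 hxz
      have h2 : ∀ b : Bool, ((v, b) : Vert) = z := fun b => huniq (v, b) rfl (by
        rw [adj_iff, ← hz']; exact h1)
      have h3 := congrArg Prod.snd ((h2 true).trans (h2 false).symm)
      exact Bool.false_ne_true h3.symm
  -- the functionals of the other white vertices do not separate `w`
  let _ : Fintype {z : Vert // z ∉ B ∧ z ≠ w} := Fintype.ofFinite _
  have hker : (⨅ i : {z : Vert // z ∉ B ∧ z ≠ w}, LinearMap.ker (L i.1.1)) ≤ LinearMap.ker (L w.1) := by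
    intro y hy
    rw [Submodule.mem_iInf] at hy
    rw [LinearMap.mem_ker]
    rcases zmod2 (L (w.1 : Vec) y) with h | h
    · exact h
    · exfalso
      have h1 : sy y w.1 = 1 := h
      have hy0 : y ≠ 0 := by
        rintro rfl
        rw [sy_zero] at h1
        exact zero_ne_one' h1
      obtain ⟨b, hb⟩ := htwin ⟨y, hy0⟩
      apply hno
      refine ⟨hw, (⟨y, hy0⟩, b), hb, (adj_mk _ _ _ _).2 h1, ?_⟩
      intro x hx hxy
      by_contra hne
      have h2 : L (x.1 : Vec) y = 0 := LinearMap.mem_ker.1 (hy ⟨x, hx, hne⟩)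
      have h3 : sy y x.1 = 0 := h2
      have h4 := (adj_mk _ _ _ _).1 hxy
      rw [h3] at h4
      exact zero_ne_one' h4
  have hspan := mem_span_of_iInf_ker_le_ker hker
  rw [Submodule.mem_span_range_iff_exists_fun] at hspan
  obtain ⟨a, ha⟩ := hspan
  have hsum : ∀ y : Vec, ∑ i : {z : Vert // z ∉ B ∧ z ≠ w}, a i * sy y i.1.1 = sy y w.1 := by
    intro y
    have h1 := congrArg (fun f => f y) ha
    simp only [LinearMap.sum_apply, LinearMap.smul_apply, smul_eq_mul] at h1
    exact h1
  refine no_fort (F := {z | z = w ∨ ∃ h : z ∉ B ∧ z ≠ w, a ⟨z, h⟩ ≠ 0}) hB ⟨w, Or.inl rfl⟩ ?_ ?_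
  · rintro z (rfl | ⟨h, _⟩)
    · exact hw
    · exact h.1
  · rintro x _ ⟨z, hz, hxz, huniq⟩
    have hx := hsum x.1
    rcases hz with hzw | ⟨hz, haz⟩
    · -- only `w` is adjacent to `x`
      rw [hzw] at hxz huniq
      have h1 : ∑ i : {z : Vert // z ∉ B ∧ z ≠ w}, a i * sy x.1 i.1.1 = 0 := by
        apply Finset.sum_eq_zero
        intro i _
        by_cases hai : a i = 0
        · rw [hai, zero_mul]
        · rcases zmod2 (sy x.1 i.1.1) with h | h
          · rw [h, mul_zero]
          · exfalso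
            exact i.2.2 (huniq i.1 (Or.inr ⟨i.2, hai⟩) h)
      have h2 := (adj_iff _ _).1 hxz
      rw [h1, h2] at hx
      exact zero_ne_one' hx
    · -- only `z ≠ w` is adjacent to `x`
      have h0 : sy x.1 w.1 = 0 := by
        rcases zmod2 (sy x.1 w.1) with h | h
        · exact h
        · exact absurd (huniq w (Or.inl rfl) h).symm hz.2
      have h1 : ∑ i : {z : Vert // z ∉ B ∧ z ≠ w}, a i * sy x.1 i.1.1 = a ⟨z, hz⟩ * sy x.1 z.1 := by
        apply Finset.sum_eq_single (⟨z, hz⟩ : {z : Vert // z ∉ B ∧ z ≠ w})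
        · intro i _ hi
          by_cases hai : a i = 0
          · rw [hai, zero_mul]
          · rcases zmod2 (sy x.1 i.1.1) with h | h
            · rw [h, mul_zero]
            · exfalso
              apply hi
              apply Subtype.ext
              exact huniq i.1 (Or.inr ⟨i.2, hai⟩) h
        · intro h
          exact absurd (Finset.mem_univ _) h
      have h2 := (adj_iff _ _).1 hxz
      rw [h1, h2, mul_one, h0] at hx
      exact haz hx

theorem blue_one {B : Set Vert} (hB : IsForcing GG B) : blue GG B 1 = univ := by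
  apply eq_univ_of_forall
  intro w
  by_cases hw : w ∈ B
  · exact Or.inl hw
  · exact Or.inr (one_round hB hw)

theorem nonempty_of_forcing {B : Set Vert} (hB : IsForcing GG B) : B.Nonempty := by
  by_contra h
  rw [not_nonempty_iff_eq_empty] at h
  have hw : base ∉ B := by
    rw [h]; exact notMem_empty _
  obtain ⟨_, u, hu, _⟩ := one_round hB hw
  rw [h] at hu
  exact hu

theorem compl_singleton_forcing (w : Vert) : IsForcing GG {w}ᶜ := by
  have h1 : blue GG {w}ᶜ 1 = univ := by
    apply eq_univ_of_forall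
    intro z
    by_cases hz : z = w
    · right
      subst hz
      obtain ⟨u, hu, h1, _⟩ := common_nbr z.1 z.1 z.1.2 z.1.2
      refine ⟨fun h => h rfl, (⟨u, hu⟩, false), ?_, (adj_mk _ _ _ _).2 h1, ?_⟩
      · intro h
        have h2 : ((⟨u, hu⟩, false) : Vert) = z := h
        rw [← h2] at h1
        have h3 : sy u u = 1 := h1
        rw [sy_self] at h3
        exact zero_ne_one' h3
      · intro x hx _
        by_contra hne
        exact hx hne
    · exact Or.inl hz
  have h2 : ({w}ᶜ : Set Vert) ≠ univ := by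
    intro h
    have : w ∈ ({w}ᶜ : Set Vert) := h ▸ mem_univ w
    exact this rfl
  have h3 := pt_eq_one h1 h2
  unfold IsForcing
  rw [h3]
  exact h1

theorem upper : upperPt GG = 1 := by
  have hpt : ∀ B, IsMinimalForcing GG B → pt GG B = 1 := by
    intro B hB
    refine pt_eq_one (blue_one hB.1) ?_
    rintro rfl
    refine hB.2 {base}ᶜ ?_ (compl_singleton_forcing base)
    rw [ssubset_univ_iff]
    intro h
    have : base ∈ ({base}ᶜ : Set Vert) := h ▸ mem_univ base
    exact this rfl
  obtain ⟨B, hB⟩ := exists_minimal_of_wellFoundedLT (IsForcing GG)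
    ⟨_, compl_singleton_forcing base⟩
  have hB' : IsMinimalForcing GG B := ⟨hB.prop, fun C hC h => (hB.not_prop_of_lt hC) h⟩
  have hg : IsGreatest {p | ∃ B, IsMinimalForcing GG B ∧ pt GG B = p} 1 := by
    refine ⟨⟨B, hB', hpt B hB'⟩, ?_⟩
    rintro p ⟨C, hC, rfl⟩
    exact (hpt C hC).le
  exact hg.csSup_eq

/-- **Q1 is false.** The doubled symplectic graph is a connected graph with upper standard
propagation time one which is not a standard fast join. -/
theorem result : ∃ (V : Type) (_ : Fintype V) (G : SimpleGraph V),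
    G.Connected ∧ upperPt G = 1 ∧ ¬ StandardFastJoin G :=
  ⟨Vert, inferInstance, GG, connected, upper, not_join⟩

end Pool.Agent.Results.MP_81d777_co.SymplecticGraph
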